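import Pool.Agent.helper9.HQ.Spec

set_option autoImplicit false

open scoped Classical

namespace Pool.Agent.helper9.HQ

open Finset
open Pool.Agent.helper65.HC (V IsEig IsTop lam)

noncomputable section

theorem K1_lin {p q : ℝ} (h : ∀ r : ℝ, r * p ≤ r ^ 2 * q) : p = 0 := by
  have hq : 0 ≤ q := by
    have h1 := h 1
    have h2 := h (-1)
    linarith
  by_contra hp
  have h1 := h (p / (2 * q + 1))
  have h2 : 0 < 2 * q + 1 := by linarith
  have h3 : 0 < p ^ 2 := by positivity
  rw [div_pow, div_mul_eq_mul_div, div_mul_eq_mul_div, div_le_div_iff₀ h2 (by positivity)] at h1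
  nlinarith [mul_pos h3 h2]

/-- the bilinear form -/
def K1_B {n : ℕ} (W : Fin n → Fin n → Prop) (x a b : Fin n → ℝ) : ℝ :=
  (∑ i, x i * a i) * (∑ i, x i * b i) +
    (1 / 2) * ∑ i, ∑ j, if W i j then x i * x j * (a i + a j) * (b i + b j) else 0

theorem K1_pol {n : ℕ} (W : Fin n → Fin n → Prop) (x a b : Fin n → ℝ) (r : ℝ) :
    Phi W x (fun j => a j + r * b j) = Phi W x a + 2 * r * K1_B W x a b + r ^ 2 * Phi W x b := by
  unfold Phi K1_B
  have h1 : ∑ i, x i * (a i + r * b i) = ∑ i, x i * a i + r * ∑ i, x i * b i := by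
    rw [mul_sum, ← sum_add_distrib]
    exact sum_congr rfl fun i _ => by ring
  have h2 : (∑ i, ∑ j, if W i j then x i * x j * (a i + r * b i + (a j + r * b j)) ^ 2 else 0) =
      (∑ i, ∑ j, if W i j then x i * x j * (a i + a j) ^ 2 else 0) +
      2 * r * (∑ i, ∑ j, if W i j then x i * x j * (a i + a j) * (b i + b j) else 0) +
      r ^ 2 * (∑ i, ∑ j, if W i j then x i * x j * (b i + b j) ^ 2 else 0) := by
    simp only [mul_sum, ← sum_add_distrib]
    refine sum_congr rfl fun i _ => sum_congr rfl fun j _ => ?_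
    split_ifs
    · ring
    · ring
  rw [h1, h2]
  ring

theorem K1_NN {n : ℕ} (x a b : Fin n → ℝ) (r : ℝ) :
    NN x (fun j => a j + r * b j) = NN x a + 2 * r * (∑ i, x i * a i * b i) + r ^ 2 * NN x b := by
  unfold NN
  simp only [mul_sum, ← sum_add_distrib]
  exact sum_congr rfl fun i _ => by ring

theorem K1_single {n : ℕ} (W : Fin n → Fin n → Prop) (hW : ∀ i j, W i j → W j i) (x a : Fin n → ℝ)
    (i : Fin n) : K1_B W x a (fun j => if j = i then 1 else 0) =
      x i * (∑ j, x j * a j + ∑ j, if W i j then x j * (a i + a j) else 0) := by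
  unfold K1_B
  have h1 : ∑ j, x j * (if j = i then (1 : ℝ) else 0) = x i := by simp
  have h2 : (∑ j, ∑ k, if W j k then x j * x k * (a j + a k) *
      ((if j = i then (1 : ℝ) else 0) + (if k = i then (1 : ℝ) else 0)) else 0) =
      (∑ j, ∑ k, if j = i then (if W j k then x j * x k * (a j + a k) else 0) else 0) +
      ∑ j, ∑ k, if k = i then (if W j k then x j * x k * (a j + a k) else 0) else 0 := by
    simp only [← sum_add_distrib]
    refine sum_congr rfl fun j _ => sum_congr rfl fun k _ => ?_
    by_cases hw : W j k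
    · rw [if_pos hw, if_pos hw]
      split_ifs
      · ring
      · ring
      · ring
      · ring
    · rw [if_neg hw, if_neg hw]
      simp
  have h3 : (∑ j, ∑ k, if j = i then (if W j k then x j * x k * (a j + a k) else 0) else 0) =
      ∑ k, if W i k then x i * x k * (a i + a k) else 0 := by
    rw [sum_comm]
    refine sum_congr rfl fun k _ => ?_
    rw [sum_ite_eq' univ i]
    simp
  have h4 : (∑ j, ∑ k, if k = i then (if W j k then x j * x k * (a j + a k) else 0) else 0) =
      ∑ k, if W i k then x i * x k * (a i + a k) else 0 := by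
    refine sum_congr rfl fun j _ => ?_
    rw [sum_ite_eq' univ i]
    simp only [mem_univ, if_true]
    have h5 : W j i ↔ W i j := ⟨hW j i, hW i j⟩
    by_cases hw : W i j
    · rw [if_pos (h5.mpr hw), if_pos hw]
      ring
    · rw [if_neg (fun h => hw (h5.mp h)), if_neg hw]
  rw [h1, h2, h3, h4]
  have h6 : (∑ k, if W i k then x i * x k * (a i + a k) else 0) =
      x i * ∑ j, if W i j then x j * (a i + a j) else 0 := by
    rw [mul_sum]
    refine sum_congr rfl fun k _ => ?_
    split_ifs
    · ring
    · ring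
  rw [h6]
  ring

theorem K1 : K1_stmt := by
  intro n W x a l hW hx ha hN hP hl hmax
  have hmain : ∀ i, l * a i = ∑ j, x j * a j + ∑ j, if W i j then x j * (a i + a j) else 0 := by
    intro i
    set b : Fin n → ℝ := fun j => if j = i then 1 else 0 with hb
    have h1 : ∀ r : ℝ, r * (2 * (K1_B W x a b - l * ∑ j, x j * a j * b j)) ≤
        r ^ 2 * (l * NN x b - Phi W x b) := by
      intro r
      have h2 := hmax (fun j => a j + r * b j)
      rw [K1_pol, K1_NN, hP, hN] at h2
      nlinarith
    have h2 := K1_lin h1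
    have h3 : ∑ j, x j * a j * b j = x i * a i := by
      simp [hb]
    rw [h3, hb, K1_single W hW] at h2
    have h4 : x i * (l * a i) = x i * (∑ j, x j * a j + ∑ j, if W i j then x j * (a i + a j) else 0) := by
      linarith
    exact mul_left_cancel₀ (hx i).ne' h4
  refine ⟨hmain, ?_⟩
  have hF : 0 < ∑ j, x j * a j := by
    have h0 : 0 ≤ ∑ j, x j * a j := sum_nonneg fun j _ => mul_nonneg (hx j).le (ha j)
    refine lt_of_le_of_ne h0 fun h => ?_
    have h1 : ∀ j, x j * a j = 0 := by
      intro j
      exact (sum_eq_zero_iff_of_nonneg fun j _ => mul_nonneg (hx j).le (ha j)).mp h.symm j (mem_univ j)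
    have h2 : NN x a = 0 := by
      unfold NN
      refine sum_eq_zero fun j _ => ?_
      have := h1 j
      calc x j * a j ^ 2 = (x j * a j) * a j := by ring
        _ = 0 := by rw [this, zero_mul]
    rw [h2] at hN
    exact zero_ne_one hN
  intro i
  have h1 : 0 ≤ ∑ j, if W i j then x j * (a i + a j) else 0 := by
    refine sum_nonneg fun j _ => ?_
    split_ifs
    · exact mul_nonneg (hx j).le (add_nonneg (ha i) (ha j))
    · exact le_refl 0
  have h2 : 0 < l * a i := by
    rw [hmain i]
    linarith
  exact (mul_pos_iff_of_pos_left hl).mp h2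

end

end Pool.Agent.helper9.HQ
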